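import Pool.Agent.H73.NK.Targets

set_option autoImplicit false

open Finset

namespace Pool.Agent.H13.NK

open Pool.Agent.H73.NK

/-- partial sums of the harmonic series against the logarithm -/
theorem sum_Icc_inv_le (m : ℕ) (hm : 1 ≤ m) (k : ℕ) :
    ∑ n ∈ Icc m (m + k), (1 : ℝ) / n ≤ 1 / m + (Real.log ((m + k : ℕ) : ℝ) - Real.log (m : ℝ)) := by
  have hm0 : (0 : ℝ) < m := by exact_mod_cast hm
  induction k with
  | zero => simp
  | succ k ih =>
    have h1 : Icc m (m + (k + 1)) = insert (m + k + 1) (Icc m (m + k)) := by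
      ext x; simp only [mem_insert, mem_Icc]; omega
    rw [h1, sum_insert (by simp)]
    have hp : (0 : ℝ) < ((m + k : ℕ) : ℝ) := by push_cast; positivity
    have hq : (0 : ℝ) < ((m + k + 1 : ℕ) : ℝ) := by push_cast; positivity
    have h2 := Real.one_sub_inv_le_log_of_pos (x := ((m + k + 1 : ℕ) : ℝ) / ((m + k : ℕ) : ℝ))
      (div_pos hq hp)
    rw [Real.log_div hq.ne' hp.ne', inv_div] at h2
    have h3 : 1 - ((m + k : ℕ) : ℝ) / ((m + k + 1 : ℕ) : ℝ) = 1 / ((m + k + 1 : ℕ) : ℝ) := by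
      field_simp; push_cast; ring
    rw [h3] at h2
    have h4 : ((m + (k + 1) : ℕ) : ℝ) = ((m + k + 1 : ℕ) : ℝ) := by push_cast; ring
    rw [h4]
    linarith

theorem pf_UP : T_UP := by
  intro z l h hz hl
  have hz0 : (0 : ℝ) < z := by linarith
  have hlz : 0 ≤ Real.log z := Real.log_nonneg (by linarith)
  set A : ℝ := Real.exp (h * l) with hA
  set B : ℝ := Real.exp ((h + 1) * l) * z with hB
  have hA1 : 1 ≤ A := by
    rw [hA]; exact Real.one_le_exp (by positivity)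
  have hBpos : 0 < B := by rw [hB]; positivity
  set D := Icc 1 ⌊z⌋₊ with hD
  set S := VW z l h with hS
  have hSmem : ∀ a ∈ S, A ≤ (a : ℝ) ∧ (a : ℝ) < Real.exp ((h + 1) * l) ∧ Rough z a := by
    intro a ha
    simp only [hS, VW, mem_filter, mem_range] at ha
    exact ⟨ha.2.1, Nat.lt_ceil.mp ha.1, ha.2.2⟩
  have hDmem : ∀ d ∈ D, 1 ≤ d ∧ (d : ℝ) ≤ z := by
    intro d hd
    rw [hD, mem_Icc] at hd
    exact ⟨hd.1, (Nat.le_floor_iff hz0.le).mp hd.2⟩
  -- lower bound for the smooth part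
  have hlow : Real.log z ≤ ∑ d ∈ D, (1 : ℝ) / d := by
    have h1 := log_add_one_le_harmonic ⌊z⌋₊
    rw [harmonic_eq_sum_Icc] at h1
    have h2 : Real.log z ≤ Real.log ((⌊z⌋₊ + 1 : ℕ) : ℝ) := by
      apply Real.log_le_log hz0
      push_cast
      exact (Nat.lt_floor_add_one z).le
    refine le_trans h2 (le_trans h1 (le_of_eq ?_))
    push_cast
    simp [hD]
  have hSnn : 0 ≤ ∑ a ∈ S, (1 : ℝ) / a := sum_nonneg (fun a _ => by positivity)
  have hstep1 : Real.log z * ∑ a ∈ S, (1 : ℝ) / a ≤ (∑ d ∈ D, (1 : ℝ) / d) * ∑ a ∈ S, (1 : ℝ) / a :=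
    mul_le_mul_of_nonneg_right hlow hSnn
  have hinj : Set.InjOn (fun p : ℕ × ℕ => p.1 * p.2) ((D ×ˢ S : Finset (ℕ × ℕ)) : Set (ℕ × ℕ)) := by
    rintro ⟨d, a⟩ hp ⟨d', a'⟩ hp' heq
    rw [mem_coe, mem_product] at hp hp'
    obtain ⟨hd1, hdz⟩ := hDmem d hp.1
    obtain ⟨hd1', hdz'⟩ := hDmem d' hp'.1
    obtain ⟨-, -, hra⟩ := hSmem a hp.2
    obtain ⟨-, -, hra'⟩ := hSmem a' hp'.2
    have hcop : ∀ (e b : ℕ), 1 ≤ e → (e : ℝ) ≤ z → Rough z b → Nat.Coprime e b := by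
      intro e b he hez hb
      rw [Nat.coprime_iff_gcd_eq_one]
      by_contra hg
      obtain ⟨p, hp, hpd⟩ := Nat.exists_prime_and_dvd hg
      have h1 : p ∣ e := dvd_trans hpd (Nat.gcd_dvd_left _ _)
      have h2 : p ∣ b := dvd_trans hpd (Nat.gcd_dvd_right _ _)
      have h3 : (p : ℝ) ≤ e := by exact_mod_cast Nat.le_of_dvd (by omega) h1
      have h4 := hb p hp h2
      linarith
    simp only at heq
    have e1 : d ∣ d' := by
      have : d ∣ d' * a' := ⟨a, heq.symm⟩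
      exact (hcop d a' hd1 hdz hra').dvd_of_dvd_mul_right this
    have e2 : d' ∣ d := by
      have : d' ∣ d * a := ⟨a', heq⟩
      exact (hcop d' a hd1' hdz' hra).dvd_of_dvd_mul_right this
    have e3 : d = d' := Nat.dvd_antisymm e1 e2
    subst e3
    have e4 : a = a' := Nat.eq_of_mul_eq_mul_left (by omega) heq
    rw [e4]
  have hprod : (∑ d ∈ D, (1 : ℝ) / d) * ∑ a ∈ S, (1 : ℝ) / a =
      ∑ n ∈ (D ×ˢ S).image (fun p : ℕ × ℕ => p.1 * p.2), (1 : ℝ) / n := by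
    rw [sum_image hinj, sum_mul_sum, ← sum_product']
    refine sum_congr rfl (fun p _ => ?_)
    push_cast
    rw [one_div_mul_one_div]
  have hsub : (D ×ˢ S).image (fun p : ℕ × ℕ => p.1 * p.2) ⊆ Icc ⌈A⌉₊ ⌊B⌋₊ := by
    intro n hn
    rw [mem_image] at hn
    obtain ⟨⟨d, a⟩, hp, rfl⟩ := hn
    rw [mem_product] at hp
    obtain ⟨hd1, hdz⟩ := hDmem d hp.1
    obtain ⟨ha1, ha2, -⟩ := hSmem a hp.2
    have hd1' : (1 : ℝ) ≤ d := by exact_mod_cast hd1
    rw [mem_Icc, Nat.ceil_le, Nat.le_floor_iff hBpos.le]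
    simp only
    push_cast
    have ha0 : (0 : ℝ) ≤ a := by positivity
    constructor
    · nlinarith
    · rw [hB, mul_comm (Real.exp ((h + 1) * l)) z]
      exact mul_le_mul hdz ha2.le ha0 hz0.le
  have hstep2 : ∑ n ∈ (D ×ˢ S).image (fun p : ℕ × ℕ => p.1 * p.2), (1 : ℝ) / n ≤
      ∑ n ∈ Icc ⌈A⌉₊ ⌊B⌋₊, (1 : ℝ) / n :=
    sum_le_sum_of_subset_of_nonneg hsub (fun n _ _ => by positivity)
  have hstep3 : ∑ n ∈ Icc ⌈A⌉₊ ⌊B⌋₊, (1 : ℝ) / n ≤ l + Real.log z + 1 := by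
    have hm1 : 1 ≤ ⌈A⌉₊ := Nat.one_le_ceil_iff.mpr (by linarith)
    rcases lt_or_ge ⌊B⌋₊ ⌈A⌉₊ with hlt | hge
    · rw [Icc_eq_empty (by omega), sum_empty]
      positivity
    · obtain ⟨k, hk⟩ := Nat.exists_eq_add_of_le hge
      rw [hk]
      refine le_trans (sum_Icc_inv_le _ hm1 k) ?_
      rw [← hk]
      have hm1' : (1 : ℝ) ≤ (⌈A⌉₊ : ℝ) := by exact_mod_cast hm1
      have h1 : 1 / (⌈A⌉₊ : ℝ) ≤ 1 := by
        rw [div_le_one (by linarith)]; exact hm1'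
      have h2 : Real.log (⌊B⌋₊ : ℝ) ≤ Real.log B := by
        apply Real.log_le_log
        · have : 1 ≤ ⌊B⌋₊ := le_trans hm1 hge
          exact_mod_cast this
        · exact Nat.floor_le hBpos.le
      have h3 : Real.log A ≤ Real.log (⌈A⌉₊ : ℝ) :=
        Real.log_le_log (by linarith) (Nat.le_ceil A)
      have h4 : Real.log B = (h + 1) * l + Real.log z := by
        rw [hB, Real.log_mul (Real.exp_pos _).ne' hz0.ne', Real.log_exp]
      have h5 : Real.log A = h * l := by rw [hA, Real.log_exp]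
      rw [h4] at h2
      rw [h5] at h3
      linarith
  linarith [hstep1, hstep2, hstep3, hprod.le]

end Pool.Agent.H13.NK
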